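import Pool.Agent.Cac5.Mn
import Pool.Agent.Cac5.Stm

/-!
# MP_46b0f6_co: congruent core and anticore without any symmetry (five vertices)

All convex polyhedra near to an example with five vertices, with source points `x` in an open set of
one of the faces: core and anticore are congruent exactly for a three-parameter family (two parameters
up to scale), and none of the polyhedra has a symmetry. The shortest paths from `x` to the vertices
run in the front side (the triangles `012`, `023`, `034`), which is developed onto the pentagon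
`Pent p` by `v i ↦ p i`; the back side (the triangles `123`, `134`, `140`) is developed onto `Pent q`
by `v (i + 1) ↦ q i`.
-/

namespace Pool.Agent.Results.MP_46b0f6_co.AsymmetricPair

open Set Pool.Agent.Cac Pool.Agent.Cac5

theorem result : ∃ η > 0,
    (∀ v : Fin 5 → E3, (∀ i, dist (v i) (wx i) < η) →
      Poly v ∧ (∀ g : E3 ≃ᵢ E3, g '' range v = range v → g = IsometryEquiv.refl E3) ∧
      ∃ p q : Fin 5 → ℂ, Dev v p ∧ Dev (sh v) q ∧ ConvexPent p ∧ ConvexPent q ∧
        (∀ x ∈ Tri v 0 2 3, dist x (mid v) < 1 / 20 → ∃ X ∈ Pent p, ∀ i,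
          segment ℝ X (p i) ⊆ Pent p ∧ OneShortest v x (v i) (dist X (p i))) ∧
        ((∃ g : ℂ ≃ᵢ ℂ, g '' Pent p = Pent q) ↔ SixEq v)) ∧
    ∃ δ > 0, ∀ a b : ℝ, |a - 76| < δ → |b - 80| < δ → ∃ v : Fin 5 → E3,
      (∀ i, dist (v i) (wx i) < η) ∧ SixEq v ∧ dist (v 0) (v 1) = 6 ∧ dist (v 0) (v 2) ^ 2 = a ∧
        dist (v 0) (v 3) ^ 2 = b :=
  locMain

end Pool.Agent.Results.MP_46b0f6_co.AsymmetricPair
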