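import Pool.Agent.Gpe.Iff

/-!
MP_46b0f6_co, congruence of the core and the anticore of a convex polyhedron.

Let `p₀` be a convex polygon, and let `p` and `q` be polygons near `p₀` with the same sides. Let `S` be the
surface glued from `p` (front) and `q` (back) along their boundaries. From a point `x` of the front away
from its boundary the unique shortest paths to the points of the front are the segments in
the front. So `S` (by Alexandrov's theorem a convex polyhedron with the corners of `p` as its vertices)
has at `x` the anticore `p` and the core `q`. These are congruent if and only if `q` is, up to a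
congruence, `p` with its corners renamed by a symmetry of `p₀`. If `n ≥ 5` then for every symmetry of `p₀`
except the identity there are such `p` and `q` near `p₀` which are not congruent with the identification
of their corners given by the gluing.
-/

set_option autoImplicit false

namespace Pool.Agent.Results.MP_46b0f6_co.GluedPolygons

open Set Pool.Agent.Gpc Pool.Agent.Gpd

/-- (1) Let `n ≥ 3`, let `p₀` be a convex `n`-gon and `r > 0`. There are `ε > 0` and `η > 0` such that for
all `n`-gons `p`, `q` with `dist (p i) (p₀ i) < ε`, `dist (q i) (p₀ i) < ε` and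
`dist (p i) (p (i + 1)) = dist (q i) (q (i + 1))` for all `i`: (1a) `p` and `q` are convex `n`-gons; (1b) if
the disc of radius `r` around `x` is in the convex hull of `p` then on
the surface glued from the front `p` and the back `q` every path from the point `x` of the front to a
point `y` of the front has a length of at least `dist x y` plus `η` times the length of its part on the
back; if its length is `dist x y` then all its points are on the segment from `x` to `y` in the front;
(1c) an isometry of the plane maps the convex hull of `p` onto the convex hull of `q` if and only if there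
is a permutation `τ` of the corners which preserves the distances between the corners of `p₀` and takes the
distances between the corners of `q` to those between the corners of `p`.
(2) Let `n ≥ 5`, let `p₀` be a convex `n`-gon and let `τ`, not the identity, be a permutation which
preserves the distances between its corners. As near to `p₀` as one wants there are `n`-gons `p`, `q` as in
(1) which are congruent with `p (τ i)` corresponding to `q i`, but not with `p i` corresponding to `q i`. -/
theorem result (n : ℕ) (hn : 3 ≤ n) :
    (∀ p₀ : ZMod n → ℂ, ConvexPolygon p₀ → ∀ r > (0 : ℝ),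
      ∃ ε > (0 : ℝ), ∃ η > (0 : ℝ), ∀ p q : ZMod n → ℂ, (∀ i, dist (p i) (p₀ i) < ε) →
        (∀ i, dist (q i) (p₀ i) < ε) →
        (∀ i, dist (p i) (p (i + 1)) = dist (q i) (q (i + 1))) →
        (ConvexPolygon p ∧ ConvexPolygon q) ∧
          (∀ x : ℂ, Metric.closedBall x r ⊆ convexHull ℝ (range p) →
            ∀ (y : ℂ) (l : List (Bool × ℂ)), IsPath p q l → l.head? = some (true, x) →
              l.getLast? = some (true, y) → dist x y + η * lenBack l ≤ len l ∧
                (len l = dist x y → ∀ u ∈ l, OnSegment p q x y u)) ∧
          ((∃ g : ℂ ≃ᵢ ℂ, g '' convexHull ℝ (range p) = convexHull ℝ (range q)) ↔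
            ∃ τ : Equiv.Perm (ZMod n),
              (∀ i j, dist (p₀ (τ i)) (p₀ (τ j)) = dist (p₀ i) (p₀ j)) ∧
                ∀ i j, dist (q i) (q j) = dist (p (τ i)) (p (τ j)))) ∧
    (5 ≤ n → ∀ p₀ : ZMod n → ℂ, ConvexPolygon p₀ → ∀ τ : Equiv.Perm (ZMod n), τ ≠ 1 →
      (∀ i j, dist (p₀ (τ i)) (p₀ (τ j)) = dist (p₀ i) (p₀ j)) →
      ∀ ε > (0 : ℝ), ∃ p q : ZMod n → ℂ,
        (∀ i, dist (p i) (p₀ i) < ε) ∧ (∀ i, dist (q i) (p₀ i) < ε) ∧
        (∀ i, dist (p i) (p (i + 1)) = dist (q i) (q (i + 1))) ∧
        (∀ i j, dist (q i) (q j) = dist (p (τ i)) (p (τ j))) ∧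
        ¬ ∀ i j, dist (p i) (p j) = dist (q i) (q j)) := by
  refine ⟨fun p₀ h₀ r hr => ?_, fun h5 p₀ h₀ τ hτ hd ε hε => Gpe.ex h5 h₀ τ hτ hd hε⟩
  obtain ⟨ε, η, h1, h2, h3⟩ := Gpe.main hn h₀ hr
  refine ⟨ε, h1, η, h2, fun p q hp hq _ => ?_⟩
  obtain ⟨h4, h5, h6, h7⟩ := h3 p q hp hq
  exact ⟨⟨h4, h5⟩, h6, fun ⟨g, hg⟩ => h7 g hg, fun ⟨τ, _, hτ⟩ => Gpe.back hn h5 τ hτ⟩

end Pool.Agent.Results.MP_46b0f6_co.GluedPolygons
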