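import Pool.Agent.Cac.Tet
import Pool.Agent.Cac.Sym

/-!
# MP_46b0f6_co: core and anticore of tetrahedra

The complete answer for tetrahedra: after the renaming of the vertices that puts the source point
`x` in the face `v 0, v 1, v 2` with the shortest path to `v 3` through the edge `v 1, v 2` (`pos`:
this is possible for each point of the surface that is not a vertex), the anticore is the development
`p` of the faces at the edge `v 1, v 2`, the core is the development `r` of the faces at the edge
`v 0, v 3`, and they are congruent if and only if these two opposite edges are equal and one more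
pair of opposite edges is equal, that is, if and only if an isometry of space carries the
tetrahedron to itself and exchanges the two sides.
-/

namespace Pool.Agent.Results.MP_46b0f6_co.Tetrahedra

open Pool.Agent.Cac

theorem result :
    (∀ v : Fin 4 → E3, Nondeg v → ∀ x ∈ Surf v, (∀ i, x ≠ v i) →
      ∃ (σ : Equiv.Perm (Fin 4)) (q : E3), Nondeg (v ∘ σ) ∧ Surf (v ∘ σ) = Surf v ∧
        Position (v ∘ σ) x q) ∧
    ∀ v : Fin 4 → E3, Nondeg v →
      (∃ p, IsDev v p) ∧ (∃ r, IsDev (sw v) r) ∧
      ∀ p r : Fin 4 → ℂ, IsDev v p → IsDev (sw v) r →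
        ((∃ φ : ℂ ≃ᵢ ℂ, φ '' Reg p = Reg r) ↔ EdgeCond v) ∧ (EdgeCond v ↔ Swaps v) ∧
        ∀ x q : E3, Position v x q →
          ∃ X ∈ Reg p, ∀ i, IsLeastLen v x (v i) (dist X (p i)) ∧ segment ℝ X (p i) ⊆ Reg p := by
  refine ⟨fun v hv x hx hn => ?_, fun v hv => ⟨exdev hv, exdev (aff_sw hv), fun p r hp hr =>
    ⟨cong hv hp hr, symmetry_iff hv, fun x q h => source hv hp x h.1 q h.2.1 h.2.2⟩⟩⟩
  obtain ⟨σ, h1, q, h2, h3⟩ := pos hv x hx hn
  exact ⟨σ, q, hv.comp_embedding σ.toEmbedding, surf_perm v σ, h1, h2,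
    (surf_perm v σ).symm ▸ h3⟩

end Pool.Agent.Results.MP_46b0f6_co.Tetrahedra
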